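import Pool.Agent.Lib.MP_b5021c_nt.IfaceL1

/-!
# Board b5, module VZ: strict maximum principle for `f / q`
-/

namespace Pool.Agent.B5.H16

open Polynomial Metric

theorem vz : VZS := by
  intro q f hq hle hne z hz
  set g : ℂ → ℂ := fun z => f.eval z / q.eval z with hg
  have hcl : closure (ball (0 : ℂ) 1) = closedBall 0 1 := closure_ball 0 one_ne_zero
  have hd : DiffContOnCl ℂ g (ball 0 1) := by
    refine ⟨?_, ?_⟩
    · intro w hw
      have hw' : q.eval w ≠ 0 := hq w (by simpa using (mem_ball_zero_iff.1 hw).le)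
      exact (f.differentiableAt.div q.differentiableAt hw').differentiableWithinAt
    · rw [hcl]
      intro w hw
      have hw' : q.eval w ≠ 0 := hq w (by simpa using hw)
      exact (f.continuousAt.div q.continuousAt hw').continuousWithinAt
  have hg1 : ∀ w ∈ closedBall (0 : ℂ) 1, ‖g w‖ ≤ 1 := by
    intro w hw
    refine Complex.norm_le_of_forall_mem_frontier_norm_le isBounded_ball hd ?_ (by rw [hcl]; exact hw)
    intro v hv
    rw [frontier_ball 0 one_ne_zero] at hv
    have hv1 : ‖v‖ = 1 := by simpa using hv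
    have hqv : 0 < ‖q.eval v‖ := norm_pos_iff.2 (hq v hv1.le)
    simp only [hg, norm_div]
    rw [div_le_one hqv]
    exact hle v hv1
  have hzb : z ∈ ball (0 : ℂ) 1 := by simpa using hz
  have hqz : 0 < ‖q.eval z‖ := norm_pos_iff.2 (hq z hz.le)
  have h1 : ‖g z‖ ≤ 1 := hg1 z (ball_subset_closedBall hzb)
  rcases h1.lt_or_eq with h2 | h2
  · simp only [hg, norm_div] at h2
    rwa [div_lt_one hqz] at h2
  · exfalso
    have hm : IsMaxOn (norm ∘ g) (ball 0 1) z := by
      intro w hw
      simp only [Set.mem_setOf_eq, Function.comp_apply]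
      rw [h2]
      exact hg1 w (ball_subset_closedBall hw)
    have he := Complex.norm_eqOn_closure_of_isPreconnected_of_isMaxOn
      (convex_ball (0 : ℂ) 1).isPreconnected isOpen_ball hd hzb hm
    obtain ⟨v, hv1, hv2⟩ := hne
    have hvc : v ∈ closure (ball (0 : ℂ) 1) := by
      rw [hcl]; simpa using hv1.le
    have h3 := he hvc
    simp only [Function.comp_apply, Function.const_apply, h2] at h3
    have hqv : 0 < ‖q.eval v‖ := norm_pos_iff.2 (hq v hv1.le)
    simp only [hg, norm_div] at h3
    rw [div_eq_one_iff_eq hqv.ne'] at h3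
    exact hv2 h3

end Pool.Agent.B5.H16
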